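import Pool.Agent.Helper63.ZMX.Ub
import Pool.Agent.Helper99.MX.Ocl
import Pool.Agent.Helper4.FFR.Mean

/-! LITERAL OPTIMAL FORMS STAY OPTIMAL ON EVENTS if the volumes of the forms are the same on all events: the exponent of the
form is typically constant. -/

set_option autoImplicit false

namespace Pool.Agent.Helper77.FCL

open Finset Filter Topology Matrix Pool.Agent.Helper69.RK Pool.Agent.Helper31.EC Pool.Agent.Helper31.EC.Sp
open Pool.Agent.Helper40.EL Pool.Agent.Helper89.LX Pool.Agent.Helper3.LF Pool.Agent.Helper84.MT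
open Pool.Agent.Helper14.MC (gx vx vol_eq vx_UB)
open Pool.Agent.Helper87.NSL (cndR KnS)
open Pool.Agent.Helper29.MX (Rsl rbot KAd KOp KLb volK volKO volKO_le_of KZ)
open Pool.Agent.Helper66.NJ (zFD Kn1 zFD_g zFD_g')

noncomputable section

variable {S T : Sp} {M D : ℕ} {E : ℕ → ℕ} {ι : Type}

/-- averages of bounded functions which are typically large -/
theorem avg_ge (T : Sp) (f : ∀ k, (T.F k).Ω → ℝ) {C θ : ℝ}
    (hC : ∀ᶠ k in UF, ∀ ω, (T.F k).μ ω ≠ 0 → 0 ≤ f k ω ∧ f k ω ≤ C)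
    (h : ∀ e : ℝ, 0 < e → Typ (S := T) (fun k ω => θ - e ≤ f k ω)) :
    θ ≤ ul (fun k => ∑ ω, (T.F k).μ ω * f k ω) := by
  classical
  have hU : UB (fun k => ∑ ω, (T.F k).μ ω * f k ω) := by
    refine ⟨C, ?_⟩
    filter_upwards [hC] with k hk
    refine (Finset.abs_sum_le_sum_abs _ _).trans ?_
    have h6 : ∀ ω ∈ (Finset.univ : Finset (T.F k).Ω), |(T.F k).μ ω * f k ω| ≤ (T.F k).μ ω * C := by
      intro ω _
      rw [abs_mul, abs_of_nonneg ((T.F k).nn ω)]
      by_cases hω : (T.F k).μ ω = 0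
      · rw [hω, zero_mul, zero_mul]
      · have h7 := hk ω hω
        rw [abs_of_nonneg h7.1]
        exact mul_le_mul_of_nonneg_left h7.2 ((T.F k).nn ω)
    have h7 : ∑ ω, (T.F k).μ ω = 1 := (T.F k).ms
    refine (Finset.sum_le_sum h6).trans (le_of_eq ?_)
    rw [← Finset.sum_mul, h7, one_mul]
  apply le_of_forall_pos_le_add
  intro ε hε
  have h1 : Tendsto (fun k => (T.F k).pb (fun ω => ¬ θ - ε / 2 ≤ f k ω)) UF (𝓝 0) := h (ε / 2) (by linarith)
  have h2 : 0 < ε / (2 * (|θ - ε / 2| + 1)) := by positivity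
  rw [← sub_le_iff_le_add]
  refine const_le_ul hU ?_
  filter_upwards [h1.eventually (gt_mem_nhds h2), hC] with k a b
  have e1 : (T.F k).pb (fun ω => ¬ θ - ε / 2 ≤ f k ω) = ∑ ω, res (T.F k).μ (fun ω => ¬ θ - ε / 2 ≤ f k ω) ω := rfl
  have e3 : ∑ ω, (T.F k).μ ω = 1 := (T.F k).ms
  have h3 : (θ - ε / 2) - |θ - ε / 2| * (T.F k).pb (fun ω => ¬ θ - ε / 2 ≤ f k ω) ≤ ∑ ω, (T.F k).μ ω * f k ω := by
    have e4 : (θ - ε / 2) - |θ - ε / 2| * (T.F k).pb (fun ω => ¬ θ - ε / 2 ≤ f k ω) =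
        ∑ ω, ((T.F k).μ ω * (θ - ε / 2) - |θ - ε / 2| * res (T.F k).μ (fun ω => ¬ θ - ε / 2 ≤ f k ω) ω) := by
      rw [Finset.sum_sub_distrib, ← Finset.sum_mul, ← Finset.mul_sum, e3, one_mul, ← e1]
    rw [e4]
    refine Finset.sum_le_sum fun ω _ => ?_
    by_cases h0 : (T.F k).μ ω = 0
    · have h4 : res (T.F k).μ (fun ω => ¬ θ - ε / 2 ≤ f k ω) ω = 0 := by
        unfold res
        split_ifs
        · exact h0
        · rfl
      rw [h4, h0]
      simp
    have hn := (T.F k).nn ω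
    have h5 := (b ω h0).1
    unfold res
    by_cases h6 : θ - ε / 2 ≤ f k ω
    · rw [if_neg (not_not.2 h6), mul_zero, sub_zero]
      exact mul_le_mul_of_nonneg_left h6 hn
    · rw [if_pos h6]
      have h7 := le_abs_self (θ - ε / 2)
      nlinarith
  have h4 : |θ - ε / 2| * (T.F k).pb (fun ω => ¬ θ - ε / 2 ≤ f k ω) ≤ ε / 2 := by
    have h5 := (T.F k).pb_nonneg (fun ω => ¬ θ - ε / 2 ≤ f k ω)
    have h6 := abs_nonneg (θ - ε / 2)
    have h7 : |θ - ε / 2| * (T.F k).pb (fun ω => ¬ θ - ε / 2 ≤ f k ω) ≤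
        (|θ - ε / 2| + 1) * (ε / (2 * (|θ - ε / 2| + 1))) :=
      mul_le_mul (by linarith) a.le h5 (by linarith)
    refine h7.trans (le_of_eq ?_)
    field_simp
  linarith

/-- a form over a literal label -/
theorem lit_form {W : Rsl S} {x : ∀ k, FD (S.F k) (Mon M D)} (hl : ∀ k, (x k).l = Lab.ofZ W k) :
    ∃ G : ∀ k, (S.F k).Ω → Matrix (Mon M D) (Mon M D) ℝ, (∀ k, Kn1 (W k) (G k)) ∧
      (∀ k, ∃ G' hm, x k = ⟨Lab.ofZ W k, G k, G', hm⟩) := by
  have key : ∀ k, ∃ G : (S.F k).Ω → Matrix (Mon M D) (Mon M D) ℝ, Kn1 (W k) G ∧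
      ∃ G' hm, x k = ⟨Lab.ofZ W k, G, G', hm⟩ := by
    intro k
    have h := hl k
    rcases hxk : x k with ⟨l, g, g', hm⟩
    rw [hxk] at h
    have h' : l = Lab.ofZ W k := h
    subst h'
    exact ⟨g, fun ω ω' a b c d => (hm ω ω' a b c d).1, g', hm, rfl⟩
  choose G hG h1 using key
  exact ⟨G, hG, h1⟩

/-- **LITERAL OPTIMAL FORMS STAY OPTIMAL ON EVENTS**, volumes of the K-forms the same on all events -/
theorem lit_im [Finite ι] {s : MSys S M E ι} {R : Rsl S} (hR : KnS R s.Q.v) {c : ℝ} {W : Rsl S}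
    {x : ∀ k, FD (S.F k) (Mon M D)} (hl : ∀ k, (x k).l = Lab.ofZ W k) (hx : KAd s R D c x)
    (hv : vol s.Q D x ≤ volKO s R c) (hr : ∀ (T : Sp) (q : Pj T S) (A : ∀ k, (T.F k).Ω → Prop)
      (hA : 0 < ul (T.pr A)), volKO s R c ≤ volKO (s.im q A hA) (R : Rsl (Sp.im q A)) c)
    (q : Pj T S) (A : ∀ k, (T.F k).Ω → Prop) (hA : 0 < ul (T.pr A)) :
    ∃ x' : ∀ k, FD ((Sp.im q A).F k) (Mon M D), (∀ k, (x' k).l = Lab.ofZ (S := Sp.im q A) W k) ∧
      KAd (s.im q A hA) (R : Rsl (Sp.im q A)) D c x' ∧ vol (s.im q A hA).Q D x' ≤ volKO s R c := by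
  obtain ⟨G, hG, hxG⟩ := lit_form hl
  -- the form on the space
  have hy : KAd s R D c (fun k => zFD (W k) (G k)) := by
    constructor
    · intro η hη
      filter_upwards [hx.1 η hη] with k a
      obtain ⟨G', hm, e⟩ := hxG k
      rw [e] at a
      have e2 : (zFD (F := S.F k) (W k) (G k)).g = G k := zFD_g (hG k)
      have e3 : (zFD (F := S.F k) (W k) (G k)).g' = G k := zFD_g' (hG k)
      refine ⟨a.1, fun ω hω => ?_, ?_, ?_⟩
      · have h3 := (a.2.1 ω hω).1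
        rw [e2, e3]
        exact ⟨h3, h3⟩
      · have h3 := a.2.2.1
        rw [e2]
        exact h3
      · have h3 := a.2.2.1
        rw [e3]
        exact h3
    · have h2 := hx.2
      have e : (fun k => (x k).l) = Lab.ofZ W := funext hl
      rw [e] at h2
      exact h2
  obtain ⟨v, hvv⟩ : ∃ v, v = volKO s R c := ⟨_, rfl⟩
  obtain ⟨f, hf⟩ : ∃ f : ∀ k, (S.F k).Ω → ℝ, f = fun k ω => gx s.Q k ω (G k ω) := ⟨_, rfl⟩
  have evx : vx s.Q x = fun k => ∑ ω, (S.F k).μ ω * f k ω := by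
    funext k
    obtain ⟨G', hm, e⟩ := hxG k
    unfold vx
    rw [e, hf]
    rfl
  -- typical upper bound
  have hub : ∀ ε : ℝ, 0 < ε → Typ (S := S) (fun k ω => f k ω ≤ (M - v) + ε) := by
    have h1 := Pool.Agent.Helper63.ZMX.ub_low (A := cndR s R c) hR hy (v := v) (fun T p B hB y hy' => by
      have h2 : KAd (s.im p B hB) (R : Rsl (Sp.im p B)) D c y := by
        have e : cndR (s.im p B hB) (R : Rsl (Sp.im p B)) c = fun i => (cndR s R c i).im p B := by
          funext i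
          rcases i with _ | i <;> rfl
        unfold KAd
        rw [e]
        exact hy'
      rw [hvv]
      exact (hr T p B hB).trans (volKO_le_of h2))
    intro ε hε
    refine Typ.mono (S := S) (h1 ε hε) (Eventually.of_forall fun k ω _ h2 => ?_)
    have e2 : (zFD (F := S.F k) (W k) (G k)).g = G k := zFD_g (hG k)
    have h3 : gx s.Q k ω ((zFD (F := S.F k) (W k) (G k)).g ω) ≤ M - v + ε := h2
    rw [e2] at h3
    rw [hf]
    exact h3
  obtain ⟨C, hC0, hC⟩ := Pool.Agent.Helper84.MT.gx_bd hy.1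
  have hC' : ∀ᶠ k in UF, ∀ ω, (S.F k).μ ω ≠ 0 → 0 ≤ f k ω ∧ f k ω ≤ C := by
    filter_upwards [hC] with k hk ω hω
    have e2 : (zFD (F := S.F k) (W k) (G k)).g = G k := zFD_g (hG k)
    have h3 : 0 ≤ gx s.Q k ω ((zFD (F := S.F k) (W k) (G k)).g ω) ∧
      gx s.Q k ω ((zFD (F := S.F k) (W k) (G k)).g ω) ≤ C := hk ω hω
    rw [e2] at h3
    rw [hf]
    exact h3
  -- typical equality
  have hab := Pool.Agent.Helper4.FFR.typ_abs S f (fun _ _ => (M : ℝ) - v) (C + |(M : ℝ) - v|)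
    (by
      filter_upwards [hC'] with k hk ω hω
      have h3 := hk ω hω
      rw [abs_of_nonneg h3.1]
      linarith [abs_nonneg ((M : ℝ) - v), h3.2])
    (Eventually.of_forall fun k ω _ => by linarith) hub (by
      have e1 : (fun k => ∑ ω, (S.F k).μ ω * ((M : ℝ) - v)) = fun _ => (M : ℝ) - v := by
        funext k
        rw [← Finset.sum_mul, Pool.Agent.Helper3.PR.sum_mu, one_mul]
      rw [e1, ul_const, ← evx]
      rw [vol_eq, ← hvv] at hv
      linarith)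
  -- the form on the event
  have hG' : ∀ᶠ k in UF, Kn1 (W k) (G k) := Eventually.of_forall hG
  refine ⟨fun k => zFD (F := (Sp.im q A).F k) (W k) (G k), fun k => rfl,
    Pool.Agent.Helper99.MX.kad_im q A hA hG' hy, ?_⟩
  have hG2 : ∀ᶠ k in UF, Kn1 (F := (Sp.im q A).F k) (W k) (G k) := Pool.Agent.Helper99.MX.kn1_im q A hG'
  have h4 : (M : ℝ) - v ≤ ul (fun k => ∑ ω, ((Sp.im q A).F k).μ ω * f k ω) := by
    refine avg_ge (Sp.im q A) f (C := C) ?_ (fun e he => ?_)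
    · filter_upwards [hC'] with k hk ω hω
      exact hk ω (FSp.im_supp (q.fp k) (A k) ω hω)
    · refine Typ.mono (S := Sp.im q A) (Pool.Agent.Helper81.CPY.typ_im q A hA (hab e he))
        (Eventually.of_forall fun k ω _ h5 => ?_)
      have h6 := (abs_le.1 h5).1
      linarith
  have e5 : ul (vx (s.im q A hA).Q (fun k => zFD (F := (Sp.im q A).F k) (W k) (G k))) =
      ul (fun k => ∑ ω, ((Sp.im q A).F k).μ ω * f k ω) := by
    refine ul_congr ?_
    filter_upwards [hG2] with k hk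
    have e2 : (zFD (F := (Sp.im q A).F k) (W k) (G k)).g = G k := zFD_g hk
    unfold vx
    rw [e2, hf]
    rfl
  rw [vol_eq, e5, ← hvv]
  linarith

/-- the same for type-labels -/
theorem lit_im_bot [Finite ι] {s : MSys S M E ι} {c : ℝ} {W : Rsl S}
    {x : ∀ k, FD (S.F k) (Mon M D)} (hl : ∀ k, (x k).l = Lab.ofZ W k) (hx : KAd s (rbot S) D c x)
    (hv : vol s.Q D x ≤ volKO s (rbot S) c) (hr : ∀ (T : Sp) (q : Pj T S) (A : ∀ k, (T.F k).Ω → Prop)
      (hA : 0 < ul (T.pr A)), volKO (s.im q A hA) (rbot (Sp.im q A)) c = volKO s (rbot S) c)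
    (q : Pj T S) (A : ∀ k, (T.F k).Ω → Prop) (hA : 0 < ul (T.pr A)) :
    ∃ x' : ∀ k, FD ((Sp.im q A).F k) (Mon M D), (∀ k, (x' k).l = Lab.ofZ (S := Sp.im q A) W k) ∧
      KAd (s.im q A hA) (rbot (Sp.im q A)) D c x' ∧ vol (s.im q A hA).Q D x' ≤ volKO s (rbot S) c := by
  refine lit_im (R := rbot S) (Eventually.of_forall fun k ω ω' _ _ _ h => ?_) hl hx hv
    (fun T q A hA => (hr T q A hA).ge) q A hA
  have h1 : ω = ω' := h
  rw [h1]

end

end Pool.Agent.Helper77.FCL
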