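import Pool.Agent.Helper77.FCL.Lit
import Pool.Agent.Helper89.NUM.Cl

/-! `LIT` of `Helper89/NUM/Cl`: literal optimal forms stay optimal on events. -/

set_option autoImplicit false

namespace Pool.Agent.Helper77.FCL

open Pool.Agent.Helper89.NUM

theorem lit (M : ℕ) : LIT M := by
  intro A C _ m v g r e0 D b0 S s _ hb c h0 hc W x hl hx hv T q B hB
  exact lit_im_bot hl hx hv (fun T q A hA => bk_volKO hb q A hA h0 hc) q B hB

end Pool.Agent.Helper77.FCL
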